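import Mathlib
import Pool.Agent.R507.MP28.Main

set_option autoImplicit false

/-!
# Many prime factors of `n j ± a ^ h k` simultaneously

Full positive answer: for all `K ≥ 2`, `0 < ε < 1` and all large `x` the interval
`[x, (1 + 1/K) x]` contains at least `x ^ (1 - ε)` integers that are `(K, ε, x)`-good.

Proof: a residue class `b` modulo a product `M ≤ x ^ (ε / 4)` of primes of small order (primitive
prime divisors of `a ^ (2 r) - 1`) is chosen such that all but `(log x) ^ (1 - δ)` of the linear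
forms have many prime factors dividing `M` on the whole class; the remaining forms are treated by
a sieve bound (truncated inclusion-exclusion) with saving `(log x) ^ (1 - δ / 2)`.
-/

namespace Pool.Agent.Results.MP_28b5ac_nt.ManyPrimeFactors

open Finset Filter

/-- the number of distinct primes dividing `m`; `omega 0 = 0` -/
def omega (m : ℤ) : ℕ := m.natAbs.primeFactors.card

/-- `n` is `(K, ε, x)`-good: `ω(n j + a ^ h k)` and `ω(n j - a ^ h k)` are at least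
`(log log x) ^ (1 - ε)` for all integers `2 ≤ a ≤ K`, `1 ≤ j, k ≤ K` and `0 ≤ h ≤ K log x` -/
def Good (K ε x : ℝ) (n : ℤ) : Prop :=
  ∀ a j k h : ℕ, 2 ≤ a → (a : ℝ) ≤ K → 1 ≤ j → (j : ℝ) ≤ K → 1 ≤ k → (k : ℝ) ≤ K →
    (h : ℝ) ≤ K * Real.log x →
      (Real.log (Real.log x)) ^ (1 - ε) ≤ (omega (n * j + a ^ h * k) : ℝ) ∧
      (Real.log (Real.log x)) ^ (1 - ε) ≤ (omega (n * j - a ^ h * k) : ℝ)

theorem result : ∀ K ε : ℝ, 2 ≤ K → 0 < ε → ε < 1 → ∃ x₀ : ℝ, ∀ x : ℝ, x₀ ≤ x →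
    x ^ (1 - ε) ≤
      ({n : ℤ | x ≤ (n : ℝ) ∧ (n : ℝ) ≤ (1 + K⁻¹) * x ∧ Good K ε x n}.ncard : ℝ) := by
  intro K ε hK h0 h1
  have hK2 : 2 ≤ ⌈K⌉₊ := by
    have h2 : (2 : ℝ) ≤ ⌈K⌉₊ := hK.trans (Nat.le_ceil K)
    exact_mod_cast h2
  have hmain := Pool.Agent.R507.MP28.main_nat ⌈K⌉₊ hK2 ε h0 h1
  have hmain' := (Real.tendsto_log_atTop.eventually hmain).and (eventually_ge_atTop (1 : ℝ))
  obtain ⟨x₀, hx₀⟩ := eventually_atTop.1 hmain'
  refine ⟨x₀, fun x hx => ?_⟩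
  obtain ⟨⟨G, hG, hcard⟩, hx1⟩ := hx₀ x hx
  have hxpos : 0 < x := by linarith
  have hlog0 : 0 ≤ Real.log x := Real.log_nonneg hx1
  rw [Real.exp_log hxpos] at hG
  have hfin : {n : ℤ | x ≤ (n : ℝ) ∧ (n : ℝ) ≤ (1 + K⁻¹) * x ∧ Good K ε x n}.Finite := by
    apply (Set.finite_Icc ⌈x⌉ ⌊(1 + K⁻¹) * x⌋).subset
    rintro n ⟨h2, h3, -⟩
    exact ⟨Int.ceil_le.2 h2, Int.le_floor.2 h3⟩
  have hsub : (G : Set ℤ) ⊆ {n : ℤ | x ≤ (n : ℝ) ∧ (n : ℝ) ≤ (1 + K⁻¹) * x ∧ Good K ε x n} := by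
    intro n hn
    obtain ⟨h2, h3, h4⟩ := hG n (mem_coe.1 hn)
    refine ⟨h2, h3.trans ?_, ?_⟩
    · apply mul_le_mul_of_nonneg_right _ hxpos.le
      rw [one_div]
      have : ((⌈K⌉₊ : ℕ) : ℝ)⁻¹ ≤ K⁻¹ := inv_anti₀ (by linarith) (Nat.le_ceil K)
      linarith
    · intro a j k h ha ha' hj hj' hk hk' hh
      have ha2 : a ≤ ⌈K⌉₊ := by exact_mod_cast ha'.trans (Nat.le_ceil K)
      have hj2 : j ≤ ⌈K⌉₊ := by exact_mod_cast hj'.trans (Nat.le_ceil K)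
      have hk2 : k ≤ ⌈K⌉₊ := by exact_mod_cast hk'.trans (Nat.le_ceil K)
      have hh2 : (h : ℝ) ≤ (⌈K⌉₊ : ℝ) * Real.log x :=
        hh.trans (mul_le_mul_of_nonneg_right (Nat.le_ceil K) hlog0)
      constructor
      · have h5 := h4 (a, j, k, 1) (Pool.Agent.R507.MP28.mem_CC.2
          ⟨⟨ha, ha2⟩, ⟨hj, hj2⟩, ⟨hk, hk2⟩, Or.inl rfl⟩) h hh2
        have h6 : Pool.Agent.R507.MP28.ff (a, j, k, 1) h n = n * j + a ^ h * k := by
          unfold Pool.Agent.R507.MP28.ff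
          ring
        rw [h6] at h5
        exact h5
      · have h5 := h4 (a, j, k, -1) (Pool.Agent.R507.MP28.mem_CC.2
          ⟨⟨ha, ha2⟩, ⟨hj, hj2⟩, ⟨hk, hk2⟩, Or.inr rfl⟩) h hh2
        have h6 : Pool.Agent.R507.MP28.ff (a, j, k, -1) h n = n * j - a ^ h * k := by
          unfold Pool.Agent.R507.MP28.ff
          ring
        rw [h6] at h5
        exact h5
  have hle := Set.ncard_le_ncard hsub hfin
  rw [Set.ncard_coe_finset] at hle
  calc x ^ (1 - ε) = Real.exp ((1 - ε) * Real.log x) := by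
        rw [Real.rpow_def_of_pos hxpos, mul_comm]
    _ ≤ (G.card : ℝ) := hcard
    _ ≤ _ := by exact_mod_cast hle

end Pool.Agent.Results.MP_28b5ac_nt.ManyPrimeFactors
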